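import Mathlib

/-!
# Type (f) groups and desarguesian planes: definitions
-/

set_option autoImplicit false

namespace Pool.Agent.Lib.Helper3.TypeFI

open Configuration

universe u v

/-- The collineation group of the projective plane with the points `P` and the lines `L`: the pairs
of a permutation of the points and a permutation of the lines which preserve the incidence. -/
def Collineations (P : Type u) (L : Type v) [Membership P L] :
    Subgroup (Equiv.Perm P × Equiv.Perm L) where
  carrier := {g | ∀ (p : P) (l : L), g.1 p ∈ g.2 l ↔ p ∈ l}
  mul_mem' {g h} hg hh p l := (hg (h.1 p) (h.2 l)).trans (hh p l)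
  one_mem' p l := Iff.rfl
  inv_mem' {g} hg p l := by
    have h := hg (g.1.symm p) (g.2.symm l)
    rw [Equiv.apply_symm_apply, Equiv.apply_symm_apply] at h
    exact h.symm

/-- The group `G` of collineations of the plane is of type (f) with respect to the distinct points
`a` and `b`, the line `l` joining them, and the second line `l'` through `a` (in the notation of the
problem `∞_A`, `∞_B`, `L_∞`, `L_A`). -/
structure IsTypeF {P : Type u} {L : Type v} [Membership P L] [ProjectivePlane P L]
    (G : Subgroup (Equiv.Perm P × Equiv.Perm L)) (a b : P) (l l' : L) : Prop where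
  /-- `G` consists of collineations. -/
  le : G ≤ Collineations P L
  ne : a ≠ b
  a_mem : a ∈ l
  b_mem : b ∈ l
  a_mem' : a ∈ l'
  ne' : l' ≠ l
  /-- The order of `G` is `n (n - 1)`, where `n` is the order of the plane. -/
  card : Nat.card G = ProjectivePlane.order P L * (ProjectivePlane.order P L - 1)
  /-- `G` fixes the two points and the two lines. -/
  fix : ∀ g ∈ G, g.1 a = a ∧ g.1 b = b ∧ g.2 l = l ∧ g.2 l' = l'
  /-- `G` acts regularly on the points lying on neither of the two lines. -/
  regular_points : ∀ p q : P, p ∉ l → p ∉ l' → q ∉ l → q ∉ l' → ∃! g, g ∈ G ∧ g.1 p = q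
  /-- `G` acts regularly on the lines passing through neither of the two points. -/
  regular_lines : ∀ m k : L, a ∉ m → b ∉ m → a ∉ k → b ∉ k → ∃! g, g ∈ G ∧ g.2 m = k

/-- The plane is desarguesian: isomorphic to `PG(2, K)` for a finite field `K`. The points of
`PG(2, K)` are the one-dimensional subspaces of `K ^ 3`, its lines are the two-dimensional subspaces,
and a point is on a line if it is contained in it. -/
def Desarguesian (P : Type u) (L : Type v) [Membership P L] : Prop :=
  ∃ (K : Type) (_ : Field K) (_ : Finite K)
    (e : P ≃ {U : Submodule K (Fin 3 → K) // Module.finrank K U = 1})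
    (f : L ≃ {W : Submodule K (Fin 3 → K) // Module.finrank K W = 2}),
    ∀ (p : P) (l : L), p ∈ l ↔ (e p).1 ≤ (f l).1

end Pool.Agent.Lib.Helper3.TypeFI
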