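import Pool.Agent.Lib.Helper3.TypeF.Geom
import Pool.Agent.Lib.Helper3.TypeFI.Defs

/-!
# Planes with an abelian group of type (f), in all universes, and `PG(2, K)` by subspaces
-/

set_option autoImplicit false

namespace Pool.Agent.Lib.Helper3.TypeFI

open Configuration

universe u v w

/-! ### Lines of `PG(2, K)` -/

section

variable {K : Type} [Field K]

/-- The plane orthogonal to `w`. -/
noncomputable def orth (w : Fin 3 → K) : Submodule K (Fin 3 → K) :=
  LinearMap.ker (dotProductEquiv K (Fin 3) w)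

theorem mem_orth {w x : Fin 3 → K} : x ∈ orth w ↔ dotProduct w x = 0 := by
  unfold orth
  rw [LinearMap.mem_ker]
  rfl

theorem dual_ne {w : Fin 3 → K} (hw : w ≠ 0) : dotProductEquiv K (Fin 3) w ≠ 0 := fun h =>
  hw ((dotProductEquiv K (Fin 3)).map_eq_zero_iff.1 h)

theorem finrank_orth {w : Fin 3 → K} (hw : w ≠ 0) : Module.finrank K (orth w) = 2 := by
  have h := Module.Dual.finrank_ker_add_one_of_ne_zero (dual_ne hw)
  rw [Module.finrank_fin_fun] at h
  unfold orth
  omega

theorem orth_inj {w w' : Fin 3 → K} (hw : w ≠ 0) (hw' : w' ≠ 0) (h : orth w = orth w') :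
    ∃ c : Kˣ, c • w' = w := by
  obtain ⟨x, hx⟩ : ∃ x, dotProductEquiv K (Fin 3) w x ≠ 0 := by
    by_contra hcon
    push Not at hcon
    exact dual_ne hw (LinearMap.ext hcon)
  have hx' : dotProductEquiv K (Fin 3) w' x ≠ 0 := fun h1 => hx (by
    have h2 : x ∈ orth w' := h1
    rw [← h] at h2
    exact h2)
  obtain ⟨c, hc⟩ : ∃ c : K, c = dotProductEquiv K (Fin 3) w x / dotProductEquiv K (Fin 3) w' x :=
    ⟨_, rfl⟩
  have hc0 : c ≠ 0 := by
    rw [hc]
    exact div_ne_zero hx hx'
  have hker : LinearMap.ker (dotProductEquiv K (Fin 3) w) =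
      LinearMap.ker (c • dotProductEquiv K (Fin 3) w') := by
    rw [LinearMap.ker_smul _ _ hc0]
    exact h
  have hval : dotProductEquiv K (Fin 3) w x = (c • dotProductEquiv K (Fin 3) w') x := by
    rw [LinearMap.smul_apply, hc, smul_eq_mul, div_mul_cancel₀ _ hx']
  have h1 := Module.Dual.eq_of_ker_eq_of_apply_eq x hker hval hx
  refine ⟨Units.mk0 c hc0, ?_⟩
  apply (dotProductEquiv K (Fin 3)).injective
  rw [Units.smul_def, Units.val_mk0, map_smul]
  exact h1.symm

/-- The bijection of the points with the planes of `K ^ 3`. -/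
noncomputable def planeE : Projectivization K (Fin 3 → K) ≃
    {W : Submodule K (Fin 3 → K) // Module.finrank K W = 2} :=
  Equiv.ofBijective (fun y => ⟨orth y.rep, finrank_orth y.rep_nonzero⟩) (by
    constructor
    · intro y y' h
      have h1 : orth y.rep = orth y'.rep := congrArg Subtype.val h
      obtain ⟨c, hc⟩ := orth_inj y.rep_nonzero y'.rep_nonzero h1
      rw [← y.mk_rep, ← y'.mk_rep, Projectivization.mk_eq_mk_iff]
      exact ⟨c, hc⟩
    · rintro ⟨W, hW⟩
      have hlt : W < ⊤ := by
        refine lt_top_iff_ne_top.2 fun h => ?_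
        rw [h, finrank_top, Module.finrank_fin_fun] at hW
        omega
      obtain ⟨φ, hφ, hle⟩ := Submodule.exists_le_ker_of_lt_top W hlt
      obtain ⟨w, rfl⟩ := (dotProductEquiv K (Fin 3)).surjective φ
      have hw : w ≠ 0 := fun h => hφ (by rw [h, map_zero])
      refine ⟨Projectivization.mk K w hw, Subtype.ext ?_⟩
      obtain ⟨c, hc⟩ := Projectivization.exists_smul_eq_mk_rep K w hw
      show orth (Projectivization.mk K w hw).rep = W
      have h2 : orth (Projectivization.mk K w hw).rep = orth w := by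
        ext x
        rw [mem_orth, mem_orth, ← hc, Units.smul_def, smul_dotProduct, smul_eq_mul, mul_eq_zero,
          or_iff_right c.ne_zero]
      rw [h2]
      refine (Submodule.eq_of_le_of_finrank_eq hle ?_).symm
      rw [hW]
      exact (finrank_orth hw).symm)

theorem planeE_apply (y : Projectivization K (Fin 3 → K)) : (planeE y).1 = orth y.rep := rfl

theorem inc_iff (x y : Projectivization K (Fin 3 → K)) :
    dotProduct x.rep y.rep = 0 ↔ (Projectivization.equivSubmodule K (Fin 3 → K) x).1 ≤ (planeE y).1 := by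
  have h1 : (Projectivization.equivSubmodule K (Fin 3 → K) x).1 = x.submodule := rfl
  rw [h1, Projectivization.submodule_eq, planeE_apply, Submodule.span_singleton_le_iff_mem, mem_orth,
    dotProduct_comm]

end

/-! ### Transport of structure -/

section

variable {P : Type u} {L : Type v} [Membership P L] [ProjectivePlane P L] {P' L' : Type}
  (eP : P ≃ P') (eL : L ≃ L')

/-- transported incidence -/
@[reducible] def tMem : Membership P' L' := ⟨fun l p => eP.symm p ∈ eL.symm l⟩

theorem tMem_iff (p : P') (l : L') :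
    @Membership.mem P' L' (tMem eP eL) l p ↔ eP.symm p ∈ eL.symm l := Iff.rfl

/-- transported plane -/
@[reducible] noncomputable def tPlane : @ProjectivePlane P' L' (tMem eP eL) :=
  letI := tMem eP eL
  { exists_point := fun l => by
      obtain ⟨p, hp⟩ := Nondegenerate.exists_point (P := P) (eL.symm l)
      refine ⟨eP p, ?_⟩
      show ¬ eP.symm (eP p) ∈ eL.symm l
      rwa [Equiv.symm_apply_apply]
    exists_line := fun p => by
      obtain ⟨l, hl⟩ := Nondegenerate.exists_line (L := L) (eP.symm p)
      refine ⟨eL l, ?_⟩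
      show ¬ eP.symm p ∈ eL.symm (eL l)
      rwa [Equiv.symm_apply_apply]
    eq_or_eq := fun {p₁ p₂ l₁ l₂} h1 h2 h3 h4 => by
      rcases Nondegenerate.eq_or_eq (P := P) (L := L) h1 h2 h3 h4 with h | h
      · exact Or.inl (eP.symm.injective h)
      · exact Or.inr (eL.symm.injective h)
    mkPoint := fun {l₁ l₂} h => eP (HasPoints.mkPoint (P := P) (L := L) (l₁ := eL.symm l₁)
      (l₂ := eL.symm l₂) (fun h1 => h (eL.symm.injective h1)))
    mkPoint_ax := fun {l₁ l₂} h => by
      have h1 := HasPoints.mkPoint_ax (P := P) (L := L) (l₁ := eL.symm l₁)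
        (l₂ := eL.symm l₂) (fun h1 => h (eL.symm.injective h1))
      constructor
      · show eP.symm (eP _) ∈ _
        rw [Equiv.symm_apply_apply]
        exact h1.1
      · show eP.symm (eP _) ∈ _
        rw [Equiv.symm_apply_apply]
        exact h1.2
    mkLine := fun {p₁ p₂} h => eL (HasLines.mkLine (P := P) (L := L) (p₁ := eP.symm p₁)
      (p₂ := eP.symm p₂) (fun h1 => h (eP.symm.injective h1)))
    mkLine_ax := fun {p₁ p₂} h => by
      have h1 := HasLines.mkLine_ax (P := P) (L := L) (p₁ := eP.symm p₁)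
        (p₂ := eP.symm p₂) (fun h1 => h (eP.symm.injective h1))
      constructor
      · show _ ∈ eL.symm (eL _)
        rw [Equiv.symm_apply_apply]
        exact h1.1
      · show _ ∈ eL.symm (eL _)
        rw [Equiv.symm_apply_apply]
        exact h1.2
    exists_config := by
      obtain ⟨p₁, p₂, p₃, l₁, l₂, l₃, h⟩ := ProjectivePlane.exists_config (P := P) (L := L)
      refine ⟨eP p₁, eP p₂, eP p₃, eL l₁, eL l₂, eL l₃, ?_⟩
      simp only [tMem_iff, Equiv.symm_apply_apply]
      exact h }

theorem order_eq [Fintype P] [Fintype L] [Fintype P'] [Fintype L'] :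
    @ProjectivePlane.order P' L' (tMem eP eL) (tPlane eP eL) = ProjectivePlane.order P L := by
  letI := tMem eP eL
  letI := tPlane eP eL
  have h1 := ProjectivePlane.card_points P L
  have h2 := ProjectivePlane.card_points P' L'
  have h3 := Fintype.card_congr eP
  rw [h1, h2] at h3
  nlinarith [h3, Nat.zero_le (ProjectivePlane.order P L), Nat.zero_le (ProjectivePlane.order P' L')]

end

/-- All planes with an abelian group of type (f) are desarguesian. -/
theorem planes (P : Type u) (L : Type v) [Finite P] [Finite L] [Membership P L]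
    [ProjectivePlane P L] (G : Subgroup (Equiv.Perm P × Equiv.Perm L)) (a b : P) (l l' : L)
    (hG : IsTypeF G a b l l') (hc : ∀ g ∈ G, ∀ h ∈ G, g * h = h * g) : Desarguesian P L := by
  classical
  have := Fintype.ofFinite P
  have := Fintype.ofFinite L
  let eP : P ≃ Shrink.{0} P := equivShrink.{0} P
  let eL : L ≃ Shrink.{0} L := equivShrink.{0} L
  letI i1 := tMem eP eL
  letI i2 := tPlane eP eL
  have := Fintype.ofEquiv P eP
  have := Fintype.ofEquiv L eL
  letI i3 : CommGroup G := { (inferInstance : Group G) with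
    mul_comm := fun x y => Subtype.ext (hc x x.2 y y.2) }
  let eG : Shrink.{0} G ≃* G := Shrink.mulEquiv
  have : Finite (Shrink.{0} G) := Finite.of_equiv G eG.symm.toEquiv
  have := Fintype.ofFinite (Shrink.{0} G)
  let φ : Shrink.{0} G →* Equiv.Perm (Shrink.{0} P) :=
    (eP.permCongrHom.toMonoidHom).comp
      ((MonoidHom.fst (Equiv.Perm P) (Equiv.Perm L)).comp (G.subtype.comp eG.toMonoidHom))
  let ψ : Shrink.{0} G →* Equiv.Perm (Shrink.{0} L) :=
    (eL.permCongrHom.toMonoidHom).comp
      ((MonoidHom.snd (Equiv.Perm P) (Equiv.Perm L)).comp (G.subtype.comp eG.toMonoidHom))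
  have hφ : ∀ g p, φ g p = eP ((eG g).1.1 (eP.symm p)) := fun g p => rfl
  have hψ : ∀ g l, ψ g l = eL ((eG g).1.2 (eL.symm l)) := fun g l => rfl
  have hmem : ∀ (p : P) (m : L), (eP p ∈ eL m) ↔ p ∈ m := fun p m => by
    rw [tMem_iff, Equiv.symm_apply_apply, Equiv.symm_apply_apply]
  obtain ⟨K, i4, i5, e, f, hef⟩ := Pool.Agent.Lib.Helper3.TypeF.geom (Shrink.{0} P) (Shrink.{0} L)
    (Shrink.{0} G) φ ψ (eP a) (eP b) (eL l) (eL l')
    (by
      intro g p m
      rw [hφ, hψ, hmem]
      exact (hG.le (eG g).2 (eP.symm p) (eL.symm m)).symm)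
    (fun h => hG.ne (eP.injective h)) ((hmem _ _).2 hG.a_mem) ((hmem _ _).2 hG.b_mem)
    ((hmem _ _).2 hG.a_mem') (fun h => hG.ne' (eL.injective h))
    (by
      intro g
      obtain ⟨h1, h2, h3, h4⟩ := hG.fix (eG g).1 (eG g).2
      rw [hφ, hφ, hψ, hψ]
      simp only [Equiv.symm_apply_apply, h1, h2, h3, h4]
      exact ⟨trivial, trivial, trivial, trivial⟩)
    (by
      rw [order_eq, ← hG.card, ← Nat.card_eq_fintype_card]
      exact Nat.card_congr eG.toEquiv)
    (by
      intro p q h1 h2 h3 h4
      obtain ⟨g, ⟨hg, hgp⟩, hgu⟩ := hG.regular_points (eP.symm p) (eP.symm q)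
        (fun h => h1 (by rw [tMem_iff, Equiv.symm_apply_apply]; exact h))
        (fun h => h2 (by rw [tMem_iff, Equiv.symm_apply_apply]; exact h))
        (fun h => h3 (by rw [tMem_iff, Equiv.symm_apply_apply]; exact h))
        (fun h => h4 (by rw [tMem_iff, Equiv.symm_apply_apply]; exact h))
      refine ⟨eG.symm ⟨g, hg⟩, ?_, ?_⟩
      · show φ _ p = q
        rw [hφ, MulEquiv.apply_symm_apply]
        show eP (g.1 (eP.symm p)) = q
        rw [hgp, Equiv.apply_symm_apply]
      · intro g' hg'
        have h5 : φ g' p = q := hg'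
        rw [hφ] at h5
        have h6 := hgu (eG g').1 ⟨(eG g').2, by rw [← h5, Equiv.symm_apply_apply]⟩
        rw [MulEquiv.eq_symm_apply]
        exact Subtype.ext h6)
    (by
      intro p q h1 h2 h3 h4
      obtain ⟨g, ⟨hg, hgp⟩, hgu⟩ := hG.regular_lines (eL.symm p) (eL.symm q)
        (fun h => h1 (by rw [tMem_iff, Equiv.symm_apply_apply]; exact h))
        (fun h => h2 (by rw [tMem_iff, Equiv.symm_apply_apply]; exact h))
        (fun h => h3 (by rw [tMem_iff, Equiv.symm_apply_apply]; exact h))
        (fun h => h4 (by rw [tMem_iff, Equiv.symm_apply_apply]; exact h))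
      refine ⟨eG.symm ⟨g, hg⟩, ?_, ?_⟩
      · show ψ _ p = q
        rw [hψ, MulEquiv.apply_symm_apply]
        show eL (g.2 (eL.symm p)) = q
        rw [hgp, Equiv.apply_symm_apply]
      · intro g' hg'
        have h5 : ψ g' p = q := hg'
        rw [hψ] at h5
        have h6 := hgu (eG g').1 ⟨(eG g').2, by rw [← h5, Equiv.symm_apply_apply]⟩
        rw [MulEquiv.eq_symm_apply]
        exact Subtype.ext h6)
  refine ⟨K, i4, inferInstance,
    (eP.trans e).trans (Projectivization.equivSubmodule K (Fin 3 → K)),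
    (eL.trans f).trans planeE, fun p m => ?_⟩
  rw [← hmem, hef, inc_iff]
  rfl

end Pool.Agent.Lib.Helper3.TypeFI
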