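import Pool.Agent.Lib.Helper3.TypeF.Core
import Pool.Agent.Lib.Helper3.TypeFI.Defs

/-!
# All abelian direct product difference sets are equivalent to the classical ones
-/

set_option autoImplicit false

namespace Pool.Agent.Lib.Helper3.TypeFI

open Pool.Agent.Lib.Helper3.TypeF

universe u v w

/-- `D` is a direct product difference set of order `n` in the abelian group `G` with the subgroups
`A` of order `n` and `B` of order `n - 1`: `D D⁻¹ = n + G - A - B` in the group ring. That is: the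
number of elements of `D` is `n - 1` (the coefficient of the identity), every element outside
`A ∪ B` is `d e⁻¹` for exactly one pair `(d, e)` of elements of `D`, and no element of `A ∪ B`
except the identity is of this form. -/
structure IsDPDS {G : Type w} [CommGroup G] (n : ℕ) (A B : Subgroup G) (D : Set G) : Prop where
  card_A : Nat.card A = n
  card_B : Nat.card B = n - 1
  card_D : Nat.card D = n - 1
  unique : ∀ g, g ∉ A → g ∉ B → ∃! q : G × G, q.1 ∈ D ∧ q.2 ∈ D ∧ q.1 * q.2⁻¹ = g
  none : ∀ d ∈ D, ∀ e ∈ D, d * e⁻¹ ∈ A ∨ d * e⁻¹ ∈ B → d = e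

theorem core_univ {A : Type u} {B : Type v} [AddCommGroup A] [CommGroup B] [Finite A] [Finite B]
    {f : B → A} (hf : DPD f) (hcard : Nat.card A = Nat.card B + 1) :
    ∃ (F : Type) (_ : Field F) (_ : Finite F) (γ : B ≃* Fˣ) (θ : A ≃+ F),
      ∀ b, θ (f b) = (γ b : F) := by
  classical
  let eA : Shrink.{0} A ≃+ A := Shrink.addEquiv
  let eB : Shrink.{0} B ≃* B := Shrink.mulEquiv
  have : Finite (Shrink.{0} A) := Finite.of_equiv A eA.symm.toEquiv
  have : Finite (Shrink.{0} B) := Finite.of_equiv B eB.symm.toEquiv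
  have := Fintype.ofFinite (Shrink.{0} A)
  have := Fintype.ofFinite (Shrink.{0} B)
  have hf' : DPD (fun b : Shrink.{0} B => eA.symm (f (eB b))) := by
    refine ⟨?_, ?_, ?_⟩
    · intro b h
      exact hf.ne_zero (eB b) (by
        have h1 := congrArg eA h
        rwa [AddEquiv.apply_symm_apply, map_zero] at h1)
    · intro b c h
      exact eB.injective (hf.inj (eA.symm.injective h))
    · intro b hb x y h
      have h1 : eA.symm (f (eB (b * x)) - f (eB x)) = eA.symm (f (eB (b * y)) - f (eB y)) := by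
        rw [map_sub, map_sub]
        exact h
      have h2 := eA.symm.injective h1
      rw [map_mul, map_mul] at h2
      exact eB.injective (hf.diff (eB b) (fun h3 => hb (eB.injective (by rw [h3, map_one]))) h2)
  have hc : Fintype.card (Shrink.{0} A) = Fintype.card (Shrink.{0} B) + 1 := by
    rw [← Nat.card_eq_fintype_card, ← Nat.card_eq_fintype_card, Nat.card_congr eA.toEquiv,
      Nat.card_congr eB.toEquiv]
    exact hcard
  obtain ⟨F, i1, i2, γ, θ, h⟩ := core hf' hc
  refine ⟨F, i1, inferInstance, eB.symm.trans γ, eA.symm.trans θ, fun b => ?_⟩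
  have h1 := h (eB.symm b)
  rw [MulEquiv.apply_symm_apply] at h1
  exact h1

variable {G : Type w} [CommGroup G] [Finite G] {n : ℕ} {A B : Subgroup G}

theorem isCompl (hn : 2 ≤ n) (hG : Nat.card G = n * (n - 1)) (hA : Nat.card A = n)
    (hB : Nat.card B = n - 1) : IsCompl A B := by
  have hc : Nat.Coprime (Nat.card A) (Nat.card B) := by
    rw [hA, hB]
    have h1 : n = (n - 1) + 1 := by omega
    rw [h1, Nat.add_sub_cancel]
    exact Nat.coprime_self_add_left.2 (Nat.coprime_one_left _)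
  have h1 : A ⊓ B = ⊥ := Subgroup.inf_eq_bot_of_coprime hc
  refine ⟨disjoint_iff.mpr h1, ?_⟩
  rw [codisjoint_iff, ← Subgroup.index_eq_one]
  have hAdvd : Nat.card A ∣ Nat.card (A ⊔ B : Subgroup G) := Subgroup.card_dvd_of_le le_sup_left
  have hBdvd : Nat.card B ∣ Nat.card (A ⊔ B : Subgroup G) := Subgroup.card_dvd_of_le le_sup_right
  have h2 := Nat.Coprime.mul_dvd_of_dvd_of_dvd hc hAdvd hBdvd
  rw [hA, hB, ← hG] at h2
  have h4 := (A ⊔ B).card_mul_index
  have h5 : Nat.card (A ⊔ B : Subgroup G) = Nat.card G :=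
    Nat.dvd_antisymm (Subgroup.card_subgroup_dvd_card _) h2
  rw [h5] at h4
  have h6 : 0 < Nat.card G := Nat.card_pos
  exact Nat.eq_of_mul_eq_mul_left h6 (by rw [h4, mul_one])

theorem exists_prod (h : IsCompl A B) (g : G) : ∃ (x : A) (y : B), (x : G) * y = g := by
  have h1 : g ∈ A ⊔ B := by rw [h.sup_eq_top]; exact Subgroup.mem_top g
  obtain ⟨x, hx, y, hy, h2⟩ := Subgroup.mem_sup.mp h1
  exact ⟨⟨x, hx⟩, ⟨y, hy⟩, h2⟩

theorem prod_inj (h : IsCompl A B) {x x' : A} {y y' : B} (h1 : (x : G) * y = x' * y') :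
    x = x' ∧ y = y' := by
  have h2 : (x' : G)⁻¹ * (x : G) = (y' : G) * (y : G)⁻¹ := by
    rw [eq_mul_inv_iff_mul_eq, mul_assoc, h1, inv_mul_cancel_left]
  have h3 : (x' : G)⁻¹ * (x : G) ∈ A ⊓ B := by
    refine Subgroup.mem_inf.2 ⟨mul_mem (inv_mem x'.2) x.2, ?_⟩
    rw [h2]
    exact mul_mem y'.2 (inv_mem y.2)
  rw [h.inf_eq_bot, Subgroup.mem_bot] at h3
  have h4 : x = x' := Subtype.ext (inv_mul_eq_one.1 h3).symm
  refine ⟨h4, ?_⟩
  rw [h4] at h1
  exact Subtype.ext (mul_left_cancel h1)

/-- The isomorphism `A × B ≃ G`. -/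
noncomputable def prodE (h : IsCompl A B) : A × B ≃* G :=
  MulEquiv.ofBijective (MonoidHom.coprod A.subtype B.subtype) (by
    constructor
    · rintro ⟨x, y⟩ ⟨x', y'⟩ h1
      obtain ⟨h2, h3⟩ := prod_inj h (x := x) (y := y) (x' := x') (y' := y') h1
      exact Prod.ext h2 h3
    · intro g
      obtain ⟨x, y, h1⟩ := exists_prod h g
      exact ⟨(x, y), h1⟩)

theorem prodE_apply (h : IsCompl A B) (q : A × B) : prodE h q = (q.1 : G) * q.2 := rfl

theorem prodE_symm (h : IsCompl A B) (x : A) (y : B) : (prodE h).symm ((x : G) * y) = (x, y) := by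
  rw [MulEquiv.symm_apply_eq]
  rfl

/-- Classification of the direct product difference sets in abelian groups. -/
theorem classify (n : ℕ) (A B : Subgroup G) (D : Set G) (hn : 2 ≤ n)
    (hG : Nat.card G = n * (n - 1)) (hD : IsDPDS n A B D) :
    ∃ (K : Type) (_ : Field K) (_ : Finite K) (Φ : G ≃* Multiplicative K × Kˣ) (g₀ : G),
      (∀ x, x ∈ A ↔ (Φ x).2 = 1) ∧ (∀ x, x ∈ B ↔ (Φ x).1 = 1) ∧
      ∀ d, d ∈ D ↔ Multiplicative.toAdd (Φ (g₀ * d)).1 = ((Φ (g₀ * d)).2 : K) := by
  classical
  have hc := isCompl hn hG hD.card_A hD.card_B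
  -- every `y` has exactly one `x` with `x y` in `D`
  have hex : ∀ y : B, ∃ x : A, (x : G) * y ∈ D := by
    intro y
    let π : D → B := fun d => ((prodE hc).symm (d : G)).2
    have hval : ∀ g : G, (((prodE hc).symm g).1 : G) * (((prodE hc).symm g).2 : G) = g := by
      intro g
      rw [← prodE_apply hc, MulEquiv.apply_symm_apply]
    have hinj : Function.Injective π := by
      intro d e hde
      have h1 := hval (d : G)
      have h2 := hval (e : G)
      have h3 : ((prodE hc).symm (d : G)).2 = ((prodE hc).symm (e : G)).2 := hde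
      rw [h3] at h1
      apply Subtype.ext
      apply hD.none d d.2 e e.2
      left
      have key : ∀ (d e u v w : G), u * w = d → v * w = e → d * e⁻¹ = u * v⁻¹ := by
        rintro d e u v w rfl rfl
        group
      rw [key _ _ _ _ _ h1 h2]
      exact mul_mem (SetLike.coe_mem _) (inv_mem (SetLike.coe_mem _))
    have hcard : Nat.card D = Nat.card B := by rw [hD.card_D, hD.card_B]
    have hsurj : Function.Surjective π :=
      ((Nat.bijective_iff_injective_and_card π).mpr ⟨hinj, hcard⟩).2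
    obtain ⟨d, hd⟩ := hsurj y
    refine ⟨((prodE hc).symm (d : G)).1, ?_⟩
    have h1 := hval (d : G)
    have h3 : ((prodE hc).symm (d : G)).2 = y := hd
    rw [h3] at h1
    rw [h1]
    exact d.2
  choose f₀ hf₀ using hex
  have huniq : ∀ (y : B) (x x' : A), (x : G) * y ∈ D → (x' : G) * y ∈ D → x = x' := by
    intro y x x' h h'
    have h1 : (x : G) * y = x' * y := by
      apply hD.none _ h _ h'
      left
      have : (x : G) * y * ((x' : G) * y)⁻¹ = x * (x' : G)⁻¹ := by group
      rw [this]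
      exact mul_mem x.2 (inv_mem x'.2)
    exact Subtype.ext (mul_right_cancel h1)
  have hf₀i : Function.Injective f₀ := by
    intro y y' h
    have h2 : (f₀ y : G) * y = f₀ y' * y' := by
      apply hD.none _ (hf₀ y) _ (hf₀ y')
      right
      rw [h]
      have : (f₀ y' : G) * y * ((f₀ y' : G) * y')⁻¹ = y * (y' : G)⁻¹ := by
        rw [mul_inv, mul_mul_mul_comm, mul_inv_cancel, one_mul]
      rw [this]
      exact mul_mem y.2 (inv_mem y'.2)
    rw [h] at h2
    exact Subtype.ext (mul_left_cancel h2)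
  -- an element of `A` which is not a value
  obtain ⟨c, hcv⟩ : ∃ c : A, ∀ y, f₀ y ≠ c := by
    by_contra hcon
    push Not at hcon
    have h1 : Function.Bijective f₀ := ⟨hf₀i, fun c => hcon c⟩
    have h2 := Nat.card_congr (Equiv.ofBijective f₀ h1)
    rw [hD.card_A, hD.card_B] at h2
    omega
  have hDPD : DPD (fun y : B => Additive.ofMul (c⁻¹ * f₀ y)) := by
    refine ⟨?_, ?_, ?_⟩
    · intro y hy
      have h1 : c⁻¹ * f₀ y = 1 := hy
      exact hcv y (inv_mul_eq_one.1 h1).symm
    · intro y y' hyy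
      have h1 : c⁻¹ * f₀ y = c⁻¹ * f₀ y' := hyy
      exact hf₀i (mul_left_cancel h1)
    · intro y hy x x' hxx
      have h0 : (c⁻¹ * f₀ (y * x)) / (c⁻¹ * f₀ x) = (c⁻¹ * f₀ (y * x')) / (c⁻¹ * f₀ x') := hxx
      rw [mul_div_mul_left_eq_div, mul_div_mul_left_eq_div, div_eq_mul_inv, div_eq_mul_inv] at h0
      obtain ⟨z, hz⟩ : ∃ z : A, z = f₀ (y * x) * (f₀ x)⁻¹ := ⟨_, rfl⟩
      have e0 : ∀ t : B, f₀ (y * t) * (f₀ t)⁻¹ = z →
          ((f₀ (y * t) : G) * ((y * t : B) : G)) * ((f₀ t : G) * t)⁻¹ = z * y := by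
        intro t ht
        rw [← ht]
        push_cast
        rw [mul_inv]
        have : (f₀ (y * t) : G) * (y * t) * ((f₀ t : G)⁻¹ * (t : G)⁻¹) =
            ((f₀ (y * t) : G) * (f₀ t : G)⁻¹) * (y * (t * (t : G)⁻¹)) := by
          rw [mul_mul_mul_comm, mul_assoc (y : G)]
        rw [this, mul_inv_cancel, mul_one]
      have e1 := e0 x hz.symm
      have e2 := e0 x' (by rw [← h0, hz])
      have hyG : (y : G) ≠ 1 := fun h => hy (Subtype.ext h)
      have hA : (z : G) * y ∉ A := by
        intro h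
        have h2 : (y : G) ∈ A := (Subgroup.mul_mem_cancel_left _ z.2).mp h
        have h3 : (y : G) ∈ A ⊓ B := ⟨h2, y.2⟩
        rw [hc.inf_eq_bot, Subgroup.mem_bot] at h3
        exact hyG h3
      have hz1 : z ≠ 1 := by
        intro hz1
        rw [hz] at hz1
        have h2 : f₀ (y * x) = f₀ x := mul_inv_eq_one.mp hz1
        have h3 := hf₀i h2
        exact hy (mul_eq_right.mp h3)
      have hB : (z : G) * y ∉ B := by
        intro h
        have h2 : (z : G) ∈ B := (Subgroup.mul_mem_cancel_right _ y.2).mp h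
        have h3 : (z : G) ∈ A ⊓ B := ⟨z.2, h2⟩
        rw [hc.inf_eq_bot, Subgroup.mem_bot] at h3
        exact hz1 (Subtype.ext h3)
      have hu := (hD.unique _ hA hB).unique
        (y₁ := ((f₀ (y * x) : G) * ((y * x : B) : G), (f₀ x : G) * x))
        (y₂ := ((f₀ (y * x') : G) * ((y * x' : B) : G), (f₀ x' : G) * x'))
        ⟨hf₀ _, hf₀ _, e1⟩ ⟨hf₀ _, hf₀ _, e2⟩
      exact (prod_inj hc (congrArg Prod.snd hu)).2
  have hcardAB : Nat.card (Additive A) = Nat.card B + 1 := by
    have h4 : Nat.card (Additive A) = Nat.card A := Nat.card_congr Additive.toMul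
    rw [h4, hD.card_A, hD.card_B]
    omega
  obtain ⟨K, i1, i2, γ, θ, hθ⟩ := core_univ hDPD hcardAB
  let Θ : G ≃* Multiplicative K × Kˣ :=
    (prodE hc).symm.trans (MulEquiv.prodCongr (AddEquiv.toMultiplicativeRight θ) γ)
  have hΘ : ∀ (x : A) (y : B), Θ ((x : G) * y) =
      (Multiplicative.ofAdd (θ (Additive.ofMul x)), γ y) := by
    intro x y
    show (MulEquiv.prodCongr (AddEquiv.toMultiplicativeRight θ) γ) ((prodE hc).symm ((x : G) * y)) = _
    rw [prodE_symm]
    rfl
  refine ⟨K, i1, i2, Θ, ((c : G))⁻¹, ?_, ?_, ?_⟩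
  · intro g
    obtain ⟨x, y, rfl⟩ := exists_prod hc g
    rw [hΘ]
    constructor
    · intro h
      have h1 : (y : G) ∈ A := (Subgroup.mul_mem_cancel_left _ x.2).mp h
      have h2 : (y : G) ∈ A ⊓ B := ⟨h1, y.2⟩
      rw [hc.inf_eq_bot, Subgroup.mem_bot] at h2
      have h3 : y = 1 := Subtype.ext h2
      show γ y = 1
      rw [h3, map_one]
    · intro h
      have h1 : γ y = 1 := h
      have h2 : y = 1 := γ.injective (by rw [h1, map_one])
      rw [h2, Subgroup.coe_one, mul_one]
      exact x.2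
  · intro g
    obtain ⟨x, y, rfl⟩ := exists_prod hc g
    rw [hΘ]
    constructor
    · intro h
      have h1 : (x : G) ∈ B := (Subgroup.mul_mem_cancel_right _ y.2).mp h
      have h2 : (x : G) ∈ A ⊓ B := ⟨x.2, h1⟩
      rw [hc.inf_eq_bot, Subgroup.mem_bot] at h2
      have h3 : x = 1 := Subtype.ext h2
      show Multiplicative.ofAdd (θ (Additive.ofMul x)) = 1
      rw [h3, ofMul_one, map_zero, ofAdd_zero]
    · intro h
      have h1 : Multiplicative.ofAdd (θ (Additive.ofMul x)) = 1 := h
      have h2 : θ (Additive.ofMul x) = 0 := h1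
      have h3 : Additive.ofMul x = 0 := θ.injective (by rw [h2, map_zero])
      have h4 : x = 1 := h3
      rw [h4, Subgroup.coe_one, one_mul]
      exact y.2
  · intro g
    obtain ⟨x, y, rfl⟩ := exists_prod hc g
    have e : ((c : G))⁻¹ * ((x : G) * y) = ((c⁻¹ * x : A) : G) * y := by
      push_cast
      rw [mul_assoc]
    rw [e, hΘ]
    simp only [toAdd_ofAdd]
    rw [← hθ y]
    constructor
    · intro h
      rw [huniq y x (f₀ y) h (hf₀ y)]
    · intro h
      have h1 : Additive.ofMul (c⁻¹ * x) = Additive.ofMul (c⁻¹ * f₀ y) := θ.injective h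
      have h2 : c⁻¹ * x = c⁻¹ * f₀ y := h1
      rw [mul_left_cancel h2]
      exact hf₀ y

end Pool.Agent.Lib.Helper3.TypeFI
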